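import Mathlib
import Pool.Agent.H6.Toep
import Pool.Agent.H6.Box

namespace Pool.Agent.Results.MP_9c1228_co.Counter

open Set MeasureTheory Pool.Agent.H6.Toep Pool.Agent.H6.Box

/-- Euclidean `d`-space. -/
abbrev E (d : ℕ) : Type := EuclideanSpace ℝ (Fin d)

variable {d : ℕ}

/-- A full-dimensional convex polytope. -/
def IsPolytope (Q : Set (E d)) : Prop :=
  (∃ V : Set (E d), V.Finite ∧ Q = convexHull ℝ V) ∧ (interior Q).Nonempty

/-- The translate of `X` by `v`. -/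
def shift (v : E d) (X : Set (E d)) : Set (E d) := (fun x => v + x) '' X

/-- A face-to-face tiling by translates of finitely many polytopes. -/
def IsTiling (𝒯 : Set (Set (E d))) : Prop :=
  (∃ F : Set (Set (E d)), F.Finite ∧ (∀ Q ∈ F, IsPolytope Q) ∧
    ∀ T ∈ 𝒯, ∃ Q ∈ F, ∃ v, T = shift v Q) ∧
  ⋃₀ 𝒯 = univ ∧
  (∀ S ∈ 𝒯, ∀ T ∈ 𝒯, S ≠ T → Disjoint (interior S) (interior T)) ∧
  (∀ S ∈ 𝒯, ∀ T ∈ 𝒯, IsExposed ℝ S (S ∩ T) ∧ IsExposed ℝ T (S ∩ T))

/-- A patch: a finite union of tiles. -/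
def IsPatch (𝒯 : Set (Set (E d))) (P : Set (E d)) : Prop :=
  ∃ 𝒬 : Set (Set (E d)), 𝒬 ⊆ 𝒯 ∧ 𝒬.Finite ∧ P = ⋃₀ 𝒬

/-- `Q` is the translate of `P` by `v`, together with the tiles they contain. -/
def Translate (𝒯 : Set (Set (E d))) (v : E d) (P Q : Set (E d)) : Prop :=
  Q = shift v P ∧ {S ∈ 𝒯 | S ⊆ Q} = shift v '' {S ∈ 𝒯 | S ⊆ P}

/-- Diagonalizable over `ℂ` with all eigenvalues of modulus `> 1`. -/
def Expansive (φ : E d →ₗ[ℝ] E d) : Prop :=
  ∃ (M : Matrix (Fin d) (Fin d) ℝ) (U : Matrix (Fin d) (Fin d) ℂ) (lam : Fin d → ℂ),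
    (∀ x i, φ x i = ∑ j, M i j * x j) ∧ IsUnit U ∧ (∀ i, 1 < ‖lam i‖) ∧
      M.map (fun r => (r : ℂ)) * U = U * Matrix.diagonal lam

/-- Repetitivity, inflation and deflation. -/
def SelfAffine (𝒯 : Set (Set (E d))) (φ : E d →ₗ[ℝ] E d) : Prop :=
  (∀ P, IsPatch 𝒯 P → ∃ R : ℝ, 0 < R ∧ ∀ c : E d, ∃ v Q,
    Translate 𝒯 v P Q ∧ IsPatch 𝒯 Q ∧ Q ⊆ Metric.ball c R) ∧
  Expansive φ ∧ (∀ T ∈ 𝒯, IsPatch 𝒯 (φ '' T)) ∧
  (∀ T₁ ∈ 𝒯, ∀ T₂ ∈ 𝒯, (∃ v, T₂ = shift v T₁) → ∃ w, Translate 𝒯 w (φ '' T₁) (φ '' T₂))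

/-- The set of vertices of the tiles. -/
def vertices (𝒯 : Set (Set (E d))) : Set (E d) := ⋃ T ∈ 𝒯, T.extremePoints ℝ

/-- Surface area of the boundary. -/
noncomputable def area (X : Set (E d)) : ENNReal := μHE[d - 1] (frontier X)

/-- The difference of the two sides of the formula for the set `X`. -/
noncomputable def err (Γ : Set (E d)) (Δ : ℝ) (X : Set (E d)) : ℝ :=
  ((Γ ∩ X).ncard : ℝ) - ((volume X).toReal / Δ + (1 / 2) * ((Γ ∩ frontier X).ncard : ℝ))

/-- The set `φ^k P`. -/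
def infl (φ : E d →ₗ[ℝ] E d) (k : ℕ) (P : Set (E d)) : Set (E d) := (φ ^ k) '' P

/-- The box with corners `2 p` and `2 q`. -/
def ibox (p q : Fin d → ℤ) : Set (E d) := box (fun i => 2 * (p i : ℝ)) (fun i => 2 * (q i : ℝ))

/-- The tiling. -/
def tiles (d : ℕ) : Set (Set (E d)) :=
  {T | ∃ u : Fin d → ℤ, (∀ i, vert (u i)) ∧ T = ibox u fun i => nxt (u i)}

def vec (m : Fin d → ℤ) : E d := WithLp.toLp 2 fun i => 2 * (m i : ℝ)

lemma two_le {p q : Fin d → ℤ} (h : ∀ i, p i ≤ q i) (i : Fin d) :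
    2 * (p i : ℝ) ≤ 2 * (q i : ℝ) := by
  have : (p i : ℝ) ≤ q i := by exact_mod_cast h i
  linarith

lemma ibox_subset {p q p' q' : Fin d → ℤ} (h : ∀ i, p i ≤ q i) :
    ibox p q ⊆ ibox p' q' ↔ ∀ i, p' i ≤ p i ∧ q i ≤ q' i := by
  unfold ibox
  rw [box_subset (two_le h)]
  refine forall_congr' fun i => and_congr ?_ ?_ <;> simp

lemma shift_ibox (m p q : Fin d → ℤ) :
    shift (vec m) (ibox p q) = ibox (fun i => p i + m i) (fun i => q i + m i) := by
  unfold shift ibox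
  rw [box_vadd]
  congr 1 <;> ext i <;> simp only [vec] <;> push_cast <;> ring

lemma shift_shift (v w : E d) (X : Set (E d)) : shift v (shift w X) = shift (v + w) X := by
  simp only [shift, image_image, add_assoc]

lemma shift_zero (X : Set (E d)) : shift 0 X = X := by simp [shift]

lemma shift_mono (v : E d) {X Y : Set (E d)} (h : X ⊆ Y) : shift v X ⊆ shift v Y :=
  image_mono h

lemma vec_neg (m : Fin d → ℤ) : vec (fun i => -m i) = -vec m := by
  ext i
  simp [vec]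

lemma transfer1 {p q m : Fin d → ℤ}
    (h : ∀ i n, p i ≤ n → n ≤ q i → (vert (n + m i) ↔ vert n)) {S : Set (E d)}
    (hS : S ∈ tiles d) (hs : S ⊆ ibox p q) : shift (vec m) S ∈ tiles d := by
  obtain ⟨u, hu, rfl⟩ := hS
  rw [ibox_subset fun i => (lt_nxt _).le] at hs
  refine ⟨fun i => u i + m i, fun i => ?_, ?_⟩
  · exact (h i _ (hs i).1 ((lt_nxt _).le.trans (hs i).2)).mpr (hu i)
  · rw [shift_ibox]
    congr 1
    ext i
    have h1 := lt_nxt (u i)
    show nxt (u i) + m i = nxt (u i + m i)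
    have h2 := h i (u i + 1) (by linarith [(hs i).1]) (by linarith [(hs i).2])
    rw [show u i + 1 + m i = u i + m i + 1 by ring] at h2
    rcases nxt_cases (u i) with ⟨b1, c1⟩ | ⟨b1, c1⟩ <;>
      rcases nxt_cases (u i + m i) with ⟨b2, c2⟩ | ⟨b2, c2⟩
    · omega
    · exact absurd (h2.mpr b1) b2
    · exact absurd (h2.mp b2) b1
    · omega

lemma transfer {p q m : Fin d → ℤ}
    (h : ∀ i n, p i ≤ n → n ≤ q i → (vert (n + m i) ↔ vert n)) {P : Set (E d)}
    (hP : P ⊆ ibox p q) : Translate (tiles d) (vec m) P (shift (vec m) P) := by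
  refine ⟨rfl, ?_⟩
  ext S
  constructor
  · rintro ⟨hS, hs⟩
    have h1 : S ⊆ ibox (fun i => p i + m i) (fun i => q i + m i) := by
      rw [← shift_ibox]
      exact hs.trans (shift_mono _ hP)
    refine ⟨shift (vec fun i => -m i) S, ⟨transfer1 (fun i n h2 h3 => ?_) hS h1, ?_⟩, ?_⟩
    · have := h i (n + -m i) (by linarith) (by linarith)
      rw [show n + -m i + m i = n by ring] at this
      exact this.symm
    · have := shift_mono (vec fun i => -m i) hs
      rwa [shift_shift, vec_neg, neg_add_cancel, shift_zero, ← vec_neg] at this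
    · rw [shift_shift, vec_neg, add_neg_cancel, shift_zero]
  · rintro ⟨S, ⟨hS, hs⟩, rfl⟩
    exact ⟨transfer1 h hS (hs.trans hP), shift_mono _ hs⟩

lemma ibox_patch {p q : Fin d → ℤ} (hp : ∀ i, vert (p i)) (hq : ∀ i, vert (q i))
    (h : ∀ i, p i < q i) : IsPatch (tiles d) (ibox p q) := by
  refine ⟨(fun u : Fin d → ℤ => ibox u fun i => nxt (u i)) ''
    {u | ∀ i, vert (u i) ∧ p i ≤ u i ∧ nxt (u i) ≤ q i}, ?_, ?_, ?_⟩
  · rintro _ ⟨u, hu, rfl⟩
    exact ⟨u, fun i => (hu i).1, rfl⟩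
  · refine Finite.image _ ((finite_Icc p q).subset fun u hu => ⟨fun i => (hu i).2.1, fun i => ?_⟩)
    exact (lt_nxt _).le.trans (hu i).2.2
  · apply Subset.antisymm
    · intro x hx
      choose u h1 h2 h3 h4 h5 using fun i => cover_in (hp i) (hq i) (h i) (hx i).1 (hx i).2
      exact ⟨_, ⟨u, fun i => ⟨h1 i, h2 i, h3 i⟩, rfl⟩, fun i => ⟨h4 i, h5 i⟩⟩
    · rintro x ⟨_, ⟨u, hu, rfl⟩, hx⟩
      exact (ibox_subset fun i => (lt_nxt _).le).mpr (fun i => (hu i).2) hx

lemma vertices_eq : vertices (tiles d) = {x | ∀ i, ∃ n, vert n ∧ x i = 2 * (n : ℝ)} := by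
  ext x
  simp only [vertices, mem_iUnion, exists_prop, mem_ofPred_eq]
  constructor
  · rintro ⟨_, ⟨u, hu, rfl⟩, hx⟩ i
    unfold ibox at hx
    rw [box_extreme (two_le fun i => (lt_nxt _).le)] at hx
    rcases hx i with h | h
    · exact ⟨_, hu i, h⟩
    · exact ⟨_, vert_nxt _, h⟩
  · intro hx
    choose u hu hx using hx
    refine ⟨_, ⟨u, hu, rfl⟩, ?_⟩
    unfold ibox
    rw [box_extreme (two_le fun i => (lt_nxt _).le)]
    exact fun i => Or.inl (hx i)

lemma isTiling : IsTiling (tiles d) := by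
  have tri' : ∀ u w : Fin d → ℤ, (∀ i, vert (u i)) → (∀ i, vert (w i)) → ∀ i,
      (2 * (u i : ℝ) = 2 * (w i : ℝ) ∧ 2 * (nxt (u i) : ℝ) = 2 * (nxt (w i) : ℝ)) ∨
        2 * (nxt (u i) : ℝ) ≤ 2 * (w i : ℝ) ∨ 2 * (nxt (w i) : ℝ) ≤ 2 * (u i : ℝ) := by
    intro u w hu hw i
    rcases tri (hu i) (hw i) with h | h | h
    · left; rw [h]; exact ⟨rfl, rfl⟩
    · right; left
      have : (nxt (u i) : ℝ) ≤ w i := by exact_mod_cast h
      linarith
    · right; right
      have : (nxt (w i) : ℝ) ≤ u i := by exact_mod_cast h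
      linarith
  refine ⟨⟨(fun l : Fin d → ℤ => ibox (fun _ => 0) l) '' Icc (fun _ => 1) (fun _ => 2),
    (finite_Icc _ _).image _, ?_, ?_⟩, ?_, ?_, ?_⟩
  · rintro _ ⟨l, hl, rfl⟩
    have h1 : ∀ i, (1 : ℝ) ≤ l i := fun i => by exact_mod_cast hl.1 i
    refine ⟨⟨_, corners_finite _ _, box_hull fun i => ?_⟩, ?_⟩
    · push_cast
      linarith [h1 i]
    · unfold ibox
      rw [box_interior]
      refine ⟨WithLp.toLp 2 fun _ => 1, fun i => ?_⟩
      push_cast
      constructor <;> linarith [h1 i]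
  · rintro _ ⟨u, hu, rfl⟩
    refine ⟨_, ⟨fun i => nxt (u i) - u i, ⟨fun i => ?_, fun i => ?_⟩, rfl⟩, vec u, ?_⟩
    · have := lt_nxt (u i)
      simp only
      omega
    · simp only
      rcases nxt_cases (u i) with ⟨-, h⟩ | ⟨-, h⟩ <;> omega
    · rw [shift_ibox]
      congr 1 <;> ext i <;> simp
  · apply eq_univ_of_forall
    intro x
    choose u h1 h2 h3 using fun i => cover (x i)
    exact ⟨_, ⟨u, h1, rfl⟩, fun i => ⟨h2 i, (h3 i).le⟩⟩
  · rintro _ ⟨u, hu, rfl⟩ _ ⟨w, hw, rfl⟩ hne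
    unfold ibox
    rw [box_interior, box_interior, Set.disjoint_left]
    intro x hx hx'
    apply hne
    have : u = w := by
      ext i
      have a := hx i
      have b := hx' i
      rcases tri' u w hu hw i with h | h | h
      · have : (u i : ℝ) = w i := by linarith [h.1]
        exact_mod_cast this
      · linarith [a.2, b.1]
      · linarith [a.1, b.2]
    rw [this]
  · rintro _ ⟨u, hu, rfl⟩ _ ⟨w, hw, rfl⟩
    refine ⟨box_exposed (tri' u w hu hw), ?_⟩
    rw [inter_comm]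
    exact box_exposed (tri' w u hw hu)

/-- The inflation map `x ↦ -2 x`. -/
noncomputable def phi (d : ℕ) : E d →ₗ[ℝ] E d := (-2 : ℝ) • LinearMap.id

lemma phi_ibox (p q : Fin d → ℤ) :
    phi d '' ibox p q = ibox (fun i => -2 * q i) (fun i => -2 * p i) := by
  have := box_infl (fun i => 2 * (p i : ℝ)) (fun i => 2 * (q i : ℝ))
  unfold ibox
  refine Eq.trans this ?_
  congr 1 <;> ext i <;> push_cast <;> ring

lemma window (N : ℕ) : ∃ K : ℕ, ∀ n : ℤ, -(N : ℤ) ≤ n → n ≤ N → ∀ m : ℤ,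
    (vert (n + 2 ^ K * m) ↔ vert n) := by
  choose K hK using toep
  refine ⟨(Finset.Icc (-(N : ℤ)) N).sup K, fun n h1 h2 m => hK n _ ?_ m⟩
  exact Finset.le_sup (f := K) (Finset.mem_Icc.mpr ⟨h1, h2⟩)

lemma patch_bdd {P : Set (E d)} (hP : IsPatch (tiles d) P) :
    ∃ N : ℕ, P ⊆ ibox (fun _ => -(N : ℤ)) (fun _ => N) := by
  obtain ⟨𝒬, h1, h2, rfl⟩ := hP
  have : ∀ S ∈ 𝒬, ∃ N : ℕ, ∀ M : ℕ, N ≤ M → S ⊆ ibox (fun _ => -(M : ℤ)) (fun _ => M) := by
    intro S hS
    obtain ⟨u, hu, rfl⟩ := h1 hS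
    refine ⟨Finset.univ.sup (fun i => (u i).natAbs) + 2, fun M hM => ?_⟩
    rw [ibox_subset fun i => (lt_nxt _).le]
    intro i
    have h3 : (u i).natAbs ≤ Finset.univ.sup (fun i => (u i).natAbs) :=
      Finset.le_sup (f := fun i => (u i).natAbs) (Finset.mem_univ i)
    rcases nxt_cases (u i) with ⟨-, h⟩ | ⟨-, h⟩ <;> omega
  choose! N hN using this
  refine ⟨h2.toFinset.sup N, ?_⟩
  rintro x ⟨S, hS, hx⟩
  exact hN S hS _ (Finset.le_sup (f := N) (h2.mem_toFinset.mpr hS)) hx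

lemma selfAffine : SelfAffine (tiles d) (phi d) := by
  refine ⟨?_, ?_, ?_, ?_⟩
  · intro P hP
    obtain ⟨N, hN⟩ := patch_bdd hP
    obtain ⟨K, hK⟩ := window N
    refine ⟨Real.sqrt d * (2 * N + 2 * 2 ^ K) + 1, by positivity, fun c => ?_⟩
    let m : Fin d → ℤ := fun i => 2 ^ K * ⌊c i / (2 * 2 ^ K)⌋
    have ht := transfer (m := m) (fun i n h1 h2 => hK n h1 h2 _) hN
    refine ⟨vec m, _, ht, ?_, ?_⟩
    · obtain ⟨𝒬, h1, h2, rfl⟩ := hP
      refine ⟨shift (vec m) '' 𝒬, ?_, h2.image _, ?_⟩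
      · rintro _ ⟨S, hS, rfl⟩
        exact transfer1 (m := m) (fun i n h1 h2 => hK n h1 h2 _) (h1 hS)
          ((subset_sUnion_of_mem hS).trans hN)
      · simp only [shift, sUnion_eq_biUnion, image_iUnion]
        simp
    · rintro _ ⟨x, hx, rfl⟩
      rw [Metric.mem_ball, EuclideanSpace.dist_eq]
      have hb : ∀ i, dist ((vec m + x) i) (c i) ^ 2 ≤ (2 * N + 2 * 2 ^ K) ^ 2 := by
        intro i
        have h1 := hN hx i
        have h2 := Int.floor_le (c i / (2 * 2 ^ K))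
        have h3 := Int.lt_floor_add_one (c i / (2 * 2 ^ K))
        have hp : (0 : ℝ) < 2 * 2 ^ K := by positivity
        rw [le_div_iff₀ hp] at h2
        rw [div_lt_iff₀ hp] at h3
        rw [Real.dist_eq, sq_abs]
        apply sq_le_sq'
        · simp only [vec, m, PiLp.add_apply] at h1 ⊢
          push_cast at h1 ⊢
          nlinarith [h1.1]
        · simp only [vec, m, PiLp.add_apply] at h1 ⊢
          push_cast at h1 ⊢
          nlinarith [h1.2]
      have h4 : ∑ i, dist ((vec m + x) i) (c i) ^ 2 ≤ d * (2 * N + 2 * 2 ^ K) ^ 2 := by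
        refine (Finset.sum_le_sum fun i _ => hb i).trans ?_
        simp
      refine lt_of_le_of_lt (Real.sqrt_le_sqrt h4) ?_
      rw [Real.sqrt_mul (by positivity), Real.sqrt_sq (by positivity)]
      linarith
  · refine ⟨Matrix.diagonal fun _ => -2, 1, fun _ => -2, fun x i => ?_, isUnit_one,
      fun _ => by norm_num, ?_⟩
    · simp [phi, Matrix.diagonal_apply]
    · rw [mul_one, one_mul, Matrix.diagonal_map (by simp)]
      simp
  · rintro _ ⟨u, hu, rfl⟩
    rw [phi_ibox]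
    refine ibox_patch (fun i => vert_even _) (fun i => vert_even _) fun i => ?_
    have := lt_nxt (u i)
    omega
  · rintro _ ⟨u, hu, rfl⟩ _ ⟨w, hw, rfl⟩ ⟨v, hv⟩
    have h1 : ∀ i, nxt (w i) = nxt (u i) + (w i - u i) := by
      intro i
      unfold shift ibox at hv
      rw [box_vadd] at hv
      have a := (box_subset (two_le fun i => (lt_nxt (w i)).le)).mp hv.subset i
      have b := (box_subset (fun i => by
        linarith [two_le (p := u) (fun i => (lt_nxt (u i)).le) i])).mp hv.symm.subset i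
      have : (nxt (w i) : ℝ) = nxt (u i) + (w i - u i) := by
        linarith [a.1, a.2, b.1, b.2]
      exact_mod_cast this
    refine ⟨vec fun i => -2 * (w i - u i), ?_⟩
    have h2 := transfer (p := fun i => -2 * nxt (u i)) (q := fun i => -2 * u i)
      (m := fun i => -2 * (w i - u i)) (fun i n a b => by
        have := defl (u := u i) (m := w i - u i) (by rw [← h1 i]; congr 1; ring) a b
        rwa [show n - 2 * (w i - u i) = n + -2 * (w i - u i) by ring] at this)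
      (P := ibox _ _) subset_rfl
    rw [phi_ibox, phi_ibox]
    convert h2 using 1
    rw [shift_ibox]
    congr 1 <;> ext i
    · rw [h1 i]; ring
    · ring

lemma iter_ibox (k : ℕ) :
    (phi d ^ k) '' ibox (fun _ => 0) (fun _ => 2) =
      ibox (fun _ => (pq k).1) (fun _ => (pq k).2) := by
  induction k with
  | zero => simp [pq]
  | succ k ih =>
    rw [pow_succ', Module.End.mul_eq_comp, LinearMap.coe_comp, image_comp, ih, phi_ibox]
    rfl

lemma inter_closed (p q : ℤ) : vertices (tiles d) ∩ ibox (fun _ => p) (fun _ => q) =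
    {x : E d | ∀ i, ∃ n ∈ cl p q, x i = 2 * (n : ℝ)} := by
  classical
  rw [vertices_eq]
  ext x
  simp only [ibox, box, mem_inter_iff, mem_ofPred_eq, cl, Finset.mem_filter, Finset.mem_Icc,
    ← forall_and]
  refine forall_congr' fun i => ⟨?_, ?_⟩
  · rintro ⟨⟨n, hn, h⟩, h1, h2⟩
    rw [h] at h1 h2
    refine ⟨n, ⟨⟨?_, ?_⟩, hn⟩, h⟩
    · have : (p : ℝ) ≤ n := by linarith
      exact_mod_cast this
    · have : (n : ℝ) ≤ q := by linarith
      exact_mod_cast this
  · rintro ⟨n, ⟨⟨h1, h2⟩, hn⟩, h⟩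
    have h1' : (p : ℝ) ≤ n := by exact_mod_cast h1
    have h2' : (n : ℝ) ≤ q := by exact_mod_cast h2
    exact ⟨⟨n, hn, h⟩, by linarith, by linarith⟩

lemma inter_frontier (p q : ℤ) :
    vertices (tiles d) ∩ frontier (ibox (fun _ => p) (fun _ => q)) =
    {x : E d | ∀ i, ∃ n ∈ cl p q, x i = 2 * (n : ℝ)} \
      {x : E d | ∀ i, ∃ n ∈ op p q, x i = 2 * (n : ℝ)} := by
  classical
  rw [← inter_closed]
  unfold ibox
  rw [box_frontier, vertices_eq]
  ext x
  simp only [mem_inter_iff, mem_sdiff, mem_ofPred_eq, and_assoc]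
  refine and_congr_right fun hv => and_congr_right fun _ => not_congr (forall_congr' fun i => ?_)
  simp only [op, Finset.mem_filter, Finset.mem_Ioo]
  constructor
  · rintro ⟨h1, h2⟩
    obtain ⟨n, hn, h⟩ := hv i
    rw [h] at h1 h2
    refine ⟨n, ⟨⟨?_, ?_⟩, hn⟩, h⟩
    · have : (p : ℝ) < n := by linarith
      exact_mod_cast this
    · have : (n : ℝ) < q := by linarith
      exact_mod_cast this
  · rintro ⟨n, ⟨⟨h1, h2⟩, hn⟩, h⟩
    have h1' : (p : ℝ) < n := by exact_mod_cast h1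
    have h2' : (n : ℝ) < q := by exact_mod_cast h2
    exact ⟨by linarith, by linarith⟩

theorem result (d : ℕ) (hd : 1 ≤ d) :
    ∃ (𝒯 : Set (Set (E d))) (φ : E d →ₗ[ℝ] E d),
      IsTiling 𝒯 ∧ SelfAffine 𝒯 φ ∧
      (∀ x ∈ vertices 𝒯, ∀ y ∈ vertices 𝒯, x ≠ y → 2 ≤ dist x y) ∧
      (∀ v : E d, shift v '' 𝒯 = 𝒯 → v = 0) ∧
      ∃ P ∈ 𝒯, IsPatch 𝒯 P ∧
        (∀ k : ℕ, (vertices 𝒯 ∩ infl φ k P).Finite ∧ area (infl φ k P) ≠ ⊤) ∧
        ∀ Δ : ℝ, ¬ (fun k : ℕ => err (vertices 𝒯) Δ (infl φ k P))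
          =o[Filter.atTop] fun k : ℕ => (area (infl φ k P)).toReal := by
  unfold err area infl
  obtain ⟨m, rfl⟩ : ∃ m, d = m + 1 := ⟨d - 1, by omega⟩
  have v0 : vert 0 := vert_of_even (by decide)
  refine ⟨tiles (m + 1), phi (m + 1), isTiling, selfAffine, ?_, ?_,
    ibox (fun _ => 0) (fun _ => 2), ⟨fun _ => 0, fun _ => v0, by simp [nxt_zero]⟩,
    ibox_patch (fun _ => v0) (fun _ => vert_of_even (by decide)) (fun _ => by norm_num),
    fun k => ?_, fun Δ h => ?_⟩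
  · rw [vertices_eq]
    intro x hx y hy hne
    obtain ⟨i, hi⟩ : ∃ i, x i ≠ y i := by
      by_contra hc
      push Not at hc
      exact hne (PiLp.ext hc)
    obtain ⟨a, -, ha⟩ := hx i
    obtain ⟨b, -, hb⟩ := hy i
    refine le_trans ?_ (PiLp.dist_apply_le x y i)
    rw [ha, hb] at hi ⊢
    have h1 : a - b ≠ 0 := fun h => hi (by rw [sub_eq_zero.mp h])
    have h2 : (1 : ℝ) ≤ |((a - b : ℤ) : ℝ)| := by exact_mod_cast Int.one_le_abs h1
    rw [Real.dist_eq, ← mul_sub, abs_mul]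
    push_cast at h2
    norm_num
    linarith
  · intro v hv
    have key : ∀ u : Fin (m + 1) → ℤ, (∀ i, vert (u i)) → ∀ i, ∃ n, vert n ∧
        v i + 2 * (u i : ℝ) = 2 * (n : ℝ) := by
      intro u hu i
      obtain ⟨w, hw, h⟩ := hv.subset ⟨_, ⟨u, hu, rfl⟩, rfl⟩
      unfold shift ibox at h
      rw [box_vadd] at h
      have a := (box_subset (two_le fun i => (lt_nxt (w i)).le)).mp h.symm.subset i
      have b := (box_subset (fun i => by
        linarith [two_le (p := u) (fun i => (lt_nxt (u i)).le) i])).mp h.subset i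
      exact ⟨w i, hw i, le_antisymm a.1 b.1⟩
    ext i
    obtain ⟨t, -, ht⟩ := key (fun _ => 0) (fun _ => v0) i
    by_cases h0 : t = 0
    · subst h0
      simpa using ht
    · obtain ⟨n, hn, hn'⟩ := aper h0
      obtain ⟨s, hs, hs'⟩ := key (fun _ => n) (fun _ => hn) i
      have : (s : ℝ) = n + t := by
        push_cast at ht
        linarith
      have : s = n + t := by exact_mod_cast this
      exact absurd (this ▸ hs) hn'
  · rw [iter_ibox, inter_closed]
    exact ⟨grid_finite fun _ => cl _ _, frontier_finite _ _⟩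
  · apply not_small m Δ⁻¹ (fun k => ((cl (pq k).1 (pq k).2).card : ℝ))
      (fun k => by exact_mod_cast pq_card k)
    have hO : (fun k : ℕ => (μHE[m + 1 - 1] (frontier ((phi (m + 1) ^ k) ''
        ibox (fun _ => 0) (fun _ => 2)))).toReal) =O[Filter.atTop]
        fun k : ℕ => ((2 : ℝ) ^ k) ^ m := by
      refine Asymptotics.IsBigO.of_bound
        (μHE[m] (frontier (ibox (d := m + 1) (fun _ => 0) (fun _ => 2)))).toReal
        (Filter.Eventually.of_forall fun k => ?_)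
      have e1 : (phi (m + 1) ^ k) '' ibox (fun _ => 0) (fun _ => 2) =
          (Homeomorph.smulOfNeZero ((-2 : ℝ) ^ k) (by positivity)) ''
            ibox (fun _ => 0) (fun _ => 2) := by
        congr 1
        ext x i
        rw [phi, smul_pow, ← Module.End.one_eq_id, one_pow]
        simp
      rw [e1, ← Homeomorph.image_frontier]
      have e2 := Measure.euclideanHausdorffMeasure_smul₀ m (r := (-2 : ℝ) ^ k) (by positivity)
        (frontier (ibox (d := m + 1) (fun _ => 0) (fun _ => 2)))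
      rw [Nat.add_sub_cancel]
      erw [e2]
      rw [ENNReal.smul_def, smul_eq_mul, ENNReal.toReal_mul, mul_comm]
      simp
    refine (h.trans_isBigO hO).congr_left fun k => ?_
    have hlt : (pq k).1 < (pq k).2 := by
      rw [pq_len]
      have : (0 : ℤ) < 2 ^ (k + 1) := by positivity
      omega
    have hsub : {x : E (m + 1) | ∀ i, ∃ n ∈ op (pq k).1 (pq k).2, x i = 2 * (n : ℝ)} ⊆
        {x : E (m + 1) | ∀ i, ∃ n ∈ cl (pq k).1 (pq k).2, x i = 2 * (n : ℝ)} := by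
      classical
      intro x hx i
      obtain ⟨n, hn, h⟩ := hx i
      simp only [op, Finset.mem_filter, Finset.mem_Ioo] at hn
      exact ⟨n, by simp only [cl, Finset.mem_filter, Finset.mem_Icc]; exact
        ⟨⟨hn.1.1.le, hn.1.2.le⟩, hn.2⟩, h⟩
    have hc := card_op (pq_vert k).1 (pq_vert k).2 hlt
    rw [iter_ibox, inter_closed, inter_frontier,
      ncard_sdiff hsub (grid_finite fun _ => op _ _),
      Nat.cast_sub (ncard_le_ncard hsub (grid_finite fun _ => cl _ _)),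
      ncard_grid fun _ => cl _ _, ncard_grid fun _ => op _ _]
    unfold ibox
    rw [box_volume (two_le fun _ => hlt.le)]
    simp only [Finset.prod_const, Finset.card_univ, Fintype.card_fin, hc]
    have e : (2 * ((pq k).2 : ℝ) - 2 * ((pq k).1 : ℝ)) = 2 ^ (k + 2) := by
      rw [pq_len]
      push_cast
      ring
    rw [e]
    push_cast
    rw [add_sub_cancel_right]
    ring

end Pool.Agent.Results.MP_9c1228_co.Counter
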